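import Pool.Agent.V60.LD.HallACount
import Pool.Agent.V11001.KM.Near
import Pool.Agent.Y854.GM.Win

/-!
# The Hall-Lang conjecture for abscissas near the powers of almost every real number

Let `ν n / log n → ∞`, for example `ν n = n`, and `θ < 1 / 6`.  For almost every real `u > 1`, every `σ < 1 / 6 - θ` and
all but finitely many `n` EVERY integral point `(x, y)` of every curve `y ^ 2 = x ^ 3 + A x + B` with
`||x| - u ^ (ν n)| ≤ u ^ (θ ν n)` satisfies `|A| > |x| ^ σ` or `|B| > |x| / 128`; in particular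
`max (|x|, |y|) ≤ K max (|A|, |B|) ^ M` with any `M > 9 / (1 - 6 θ)`.  The same holds for the abscissas in the windows
`||x| - α v_n| ≤ v_n ^ θ` around the multiples of a thin sequence `v`, for almost every `α`.
-/

set_option autoImplicit false

open Filter Topology MeasureTheory

namespace Pool.Agent.Results.MP_a1107e_nt.AbscissaWindows

open Pool.Agent.V11001.KM

/-- the exponent of convergence of the sequence `v` is at most `τ` -/
def ExpLe (v : ℕ → ℝ) (τ : ℝ) : Prop := ∀ t : ℝ, τ < t → Summable (fun n : ℕ => (v n) ^ (-t))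

/-- the integral points `(x, y)` of the curves `y ^ 2 = x ^ 3 + A x + B` with `|x|` in the set `W` and `|x| ≥ x₀`
satisfy `|A| > |x| ^ σ` or `|B| > |x| / 128` -/
def LargeOn (σ : ℝ) (W : Set ℝ) (x₀ : ℝ) : Prop :=
  ∀ A B x y : ℤ, y ^ 2 = x ^ 3 + A * x + B → x₀ ≤ |(x : ℝ)| → |(x : ℝ)| ∈ W →
    |(x : ℝ)| ^ σ < |(A : ℝ)| ∨ |(x : ℝ)| < 128 * |(B : ℝ)|

lemma mem_F {σ : ℝ} (hσ : 0 ≤ σ) (hσ1 : σ < 1 / 6) {A B x y : ℤ} (h : y ^ 2 = x ^ 3 + A * x + B) (hx1 : 2 ≤ |x|)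
    (h1 : ¬ |(x : ℝ)| ^ σ < |(A : ℝ)|) (h2 : ¬ |(x : ℝ)| < 128 * |(B : ℝ)|) :
    x.natAbs ∈ Pool.Agent.V60.HallA.F σ := by
  push Not at h1 h2
  have h2' : 128 * |B| ≤ |x| := by exact_mod_cast h2
  have hx2 : (2 : ℝ) ≤ |(x : ℝ)| := by exact_mod_cast hx1
  have hAx : |(A : ℝ)| ≤ |(x : ℝ)| := by
    refine h1.trans ?_
    calc |(x : ℝ)| ^ σ ≤ |(x : ℝ)| ^ (1 : ℝ) := Real.rpow_le_rpow_of_exponent_le (by linarith) (by linarith)
      _ = |(x : ℝ)| := Real.rpow_one _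
  have hAx' : |A| ≤ |x| := by exact_mod_cast hAx
  have hx0 : 0 < x := by
    by_contra hcon
    push Not at hcon
    obtain ⟨z, hz⟩ : ∃ z : ℤ, z = -x := ⟨_, rfl⟩
    have e : x = -z := by omega
    have hz0 : 0 ≤ z := by omega
    have h7 : |x| = z := by rw [e, abs_neg, abs_of_nonneg hz0]
    rw [h7] at h2' hAx' hx1
    have e2 : B = y ^ 2 + z ^ 3 + A * z := by
      rw [e] at h
      have : (-z) ^ 3 = -(z ^ 3) := by ring
      rw [this] at h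
      linarith
    have h3 : -(z * z) ≤ A * z := by
      have := (abs_le.1 hAx').1
      nlinarith
    have h4 : 0 ≤ y ^ 2 := sq_nonneg y
    have h5 : z ^ 3 - z * z ≤ |B| := by
      have := le_abs_self B
      linarith
    have h6 : z ^ 3 - z * z = z * z * (z - 1) := by ring
    have h8 : z ≤ z * z * (z - 1) := by nlinarith
    have h9 : 0 < z := by omega
    linarith
  refine ⟨A, ?_, y.natAbs, ?_⟩
  · have e : ((x.natAbs : ℕ) : ℝ) = |(x : ℝ)| := by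
      rw [Nat.cast_natAbs]
      push_cast
      rfl
    rw [e]
    exact h1
  · rw [Int.natCast_natAbs, Int.natCast_natAbs, sq_abs, abs_of_pos hx0]
    have h3 : y ^ 2 - x ^ 3 - A * x = B := by linarith
    rw [h3]
    rw [abs_of_pos hx0] at h2'
    exact h2'

lemma largeOn_of {σ : ℝ} (hσ : 0 ≤ σ) (hσ1 : σ < 1 / 6) {W : Set ℝ} {x₀ : ℝ}
    (h : ∀ t ∈ Pool.Agent.V60.HallA.F σ, (t : ℝ) ∈ W → (t : ℝ) < x₀) : LargeOn σ W (max x₀ 2) := by
  intro A B x y hxy hx hW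
  by_contra hcon
  rw [not_or] at hcon
  have hx2 : 2 ≤ |x| := by
    have : (2 : ℝ) ≤ |(x : ℝ)| := (le_max_right _ _).trans hx
    exact_mod_cast this
  have h1 := mem_F hσ hσ1 hxy hx2 hcon.1 hcon.2
  have e : ((x.natAbs : ℕ) : ℝ) = |(x : ℝ)| := by
    rw [Nat.cast_natAbs]
    push_cast
    rfl
  have h2 := h _ h1 (by rw [e]; exact hW)
  rw [e] at h2
  linarith [(le_max_left x₀ 2).trans hx]

/-- the bound in the form of the problem -/
lemma hall_lang {σ : ℝ} (hσ : 0 < σ) (hσ1 : σ < 1 / 6) {W : Set ℝ} {x₀ : ℝ} (h : LargeOn σ W x₀) (A B x y : ℤ)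
    (hAB : A ≠ 0 ∨ B ≠ 0) (hxy : y ^ 2 = x ^ 3 + A * x + B) (hx : x₀ ≤ |(x : ℝ)|) (hW : |(x : ℝ)| ∈ W) :
    max |(x : ℝ)| |(y : ℝ)| ≤ 2 * 128 ^ (3 / (2 * σ)) * (max |(A : ℝ)| |(B : ℝ)|) ^ (3 / (2 * σ)) := by
  set m : ℝ := max |(A : ℝ)| |(B : ℝ)| with hm
  have hm1 : 1 ≤ m := by
    rcases hAB with h0 | h0
    · refine le_trans ?_ (le_max_left _ _)
      exact_mod_cast Int.one_le_abs h0
    · refine le_trans ?_ (le_max_right _ _)
      exact_mod_cast Int.one_le_abs h0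
  have hm0 : 0 < m := by linarith
  have h6 : 1 ≤ 1 / σ := by
    rw [le_div_iff₀ hσ]
    linarith
  set R : ℝ := (128 * m) ^ (1 / σ) with hR
  have hR1 : 128 * m ≤ R := by
    calc 128 * m = (128 * m) ^ (1 : ℝ) := (Real.rpow_one _).symm
      _ ≤ (128 * m) ^ (1 / σ) := Real.rpow_le_rpow_of_exponent_le (by linarith) h6
  have hR0 : 0 < R := by linarith
  have hxR : |(x : ℝ)| ≤ R := by
    rcases h A B x y hxy hx hW with h1 | h1
    · have h2 : |(x : ℝ)| ^ σ ≤ 128 * m := by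
        have := le_max_left |(A : ℝ)| |(B : ℝ)|
        rw [← hm] at this
        linarith
      calc |(x : ℝ)| = (|(x : ℝ)| ^ σ) ^ (1 / σ) := by
            rw [← Real.rpow_mul (abs_nonneg _), mul_one_div, div_self hσ.ne', Real.rpow_one]
        _ ≤ (128 * m) ^ (1 / σ) := Real.rpow_le_rpow (Real.rpow_nonneg (abs_nonneg _) _) h2 (by positivity)
    · have := le_max_right |(A : ℝ)| |(B : ℝ)|
      rw [← hm] at this
      linarith
  -- the ordinate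
  have hy2 : |(y : ℝ)| ^ 2 ≤ (2 * R ^ (3 / 2 : ℝ)) ^ 2 := by
    have e1 : (y : ℝ) ^ 2 = (x : ℝ) ^ 3 + A * x + B := by exact_mod_cast hxy
    have e2 : (2 * R ^ (3 / 2 : ℝ)) ^ 2 = 4 * R ^ 3 := by
      rw [mul_pow, ← Real.rpow_natCast (R ^ (3 / 2 : ℝ)) 2, ← Real.rpow_mul hR0.le]
      norm_num
    rw [sq_abs, e1, e2]
    have h2 : (x : ℝ) ^ 3 ≤ R ^ 3 := by
      have h3 : (x : ℝ) ^ 3 ≤ |(x : ℝ)| ^ 3 := by
        rw [← abs_pow]
        exact le_abs_self _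
      refine h3.trans ?_
      gcongr
    have h3 : (A : ℝ) * x ≤ R * R := by
      calc (A : ℝ) * x ≤ |(A : ℝ) * x| := le_abs_self _
        _ = |(A : ℝ)| * |(x : ℝ)| := abs_mul _ _
        _ ≤ R * R := by
          have := le_max_left |(A : ℝ)| |(B : ℝ)|
          rw [← hm] at this
          gcongr
          linarith
    have h4 : (B : ℝ) ≤ R := by
      have := le_max_right |(A : ℝ)| |(B : ℝ)|
      rw [← hm] at this
      have := le_abs_self (B : ℝ)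
      linarith
    have h5 : 1 ≤ R := by linarith
    nlinarith [mul_le_mul_of_nonneg_left h5 hR0.le, mul_le_mul_of_nonneg_left h5 (mul_pos hR0 hR0).le]
  have hy : |(y : ℝ)| ≤ 2 * R ^ (3 / 2 : ℝ) := le_of_sq_le_sq hy2 (by positivity)
  have hx2 : |(x : ℝ)| ≤ 2 * R ^ (3 / 2 : ℝ) := by
    have h5 : 1 ≤ R := by linarith
    have h7 : R ≤ R ^ (3 / 2 : ℝ) := by
      calc R = R ^ (1 : ℝ) := (Real.rpow_one _).symm
        _ ≤ R ^ (3 / 2 : ℝ) := Real.rpow_le_rpow_of_exponent_le h5 (by norm_num)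
    linarith
  refine (max_le hx2 hy).trans (le_of_eq ?_)
  rw [hR, ← Real.rpow_mul (by positivity), Real.mul_rpow (by norm_num) hm0.le]
  have e3 : 1 / σ * (3 / 2) = 3 / (2 * σ) := by field_simp
  rw [e3]
  ring

/-- **Theorem.** (1) Let `ν n / log n → ∞`, let `B₀` be a countable set of real numbers and `0 ≤ σ < 1 / 6`.
For every `θ < 1` there is a set `F` of Hausdorff dimension at most `(5 / 6 + σ) / (1 - θ)` such that for each `u > 1`
outside `F` and each positive `β` in `B₀` there is `x₀` such that all the integral points `(x, y)` of the curves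
`y ^ 2 = x ^ 3 + A x + B` with `|x| ≥ x₀` and `||x| - β u ^ (ν n)| ≤ u ^ (θ ν n)` for some `n` satisfy `|A| > |x| ^ σ` or
`|B| > |x| / 128`.
(2) For almost every real `u > 1` this holds for all `0 ≤ σ < 1 / 6` and all `θ < 1 / 6 - σ`.
(3) For all sequences `v ≥ 1` of exponent of convergence at most `τ ≥ 0`, all `0 ≤ σ < 1 / 6` and all `θ < 1` there is a
set `F` of Hausdorff dimension at most `(5 / 6 + σ + τ) / (1 - θ)` such that for each `α > 0` outside `F` the same holds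
for the integral points with `||x| - α v_n| ≤ v_n ^ θ` for all large `n`.
(4) This bound gives `max (|x|, |y|) ≤ K max (|A|, |B|) ^ M` with `M = 3 / (2 σ)` and `K = 2 · 128 ^ M`. -/
theorem result :
    (∀ ν : ℕ → ℝ, Fast ν → ∀ B₀ : Set ℝ, B₀.Countable →
      (∀ σ θ : ℝ, 0 ≤ σ → σ < 1 / 6 → θ < 1 → ∃ F : Set ℝ, dimH F ≤ ENNReal.ofReal ((5 / 6 + σ) / (1 - θ)) ∧
        ∀ u : ℝ, 1 < u → u ∉ F → ∀ β ∈ B₀, 0 < β → ∃ x₀ : ℝ, LargeOn σ {z | Near ν θ β u z} x₀) ∧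
      (∀ᵐ u : ℝ, 1 < u → ∀ σ θ : ℝ, 0 ≤ σ → σ < 1 / 6 → θ < 1 / 6 - σ → ∀ β ∈ B₀, 0 < β →
        ∃ x₀ : ℝ, LargeOn σ {z | Near ν θ β u z} x₀)) ∧
    (∀ (v : ℕ → ℝ) (τ σ θ : ℝ), (∀ n, 1 ≤ v n) → 0 ≤ τ → ExpLe v τ → 0 ≤ σ → σ < 1 / 6 → θ < 1 →
      ∃ F : Set ℝ, dimH F ≤ ENNReal.ofReal ((5 / 6 + σ + τ) / (1 - θ)) ∧ ∀ α : ℝ, 0 < α → α ∉ F →
        ∃ n₀ : ℕ, ∀ n : ℕ, n₀ ≤ n → LargeOn σ {z | |z - α * v n| ≤ (v n) ^ θ} 2) ∧
    (∀ (σ : ℝ) (W : Set ℝ) (x₀ : ℝ), 0 < σ → σ < 1 / 6 → LargeOn σ W x₀ → ∀ A B x y : ℤ,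
      4 * A ^ 3 + 27 * B ^ 2 ≠ 0 → y ^ 2 = x ^ 3 + A * x + B → x₀ ≤ |(x : ℝ)| → |(x : ℝ)| ∈ W →
        max |(x : ℝ)| |(y : ℝ)| ≤ 2 * 128 ^ (3 / (2 * σ)) * (max |(A : ℝ)| |(B : ℝ)|) ^ (3 / (2 * σ))) := by
  refine ⟨fun ν hν B₀ hB => ⟨fun σ θ hσ hσ1 hθ => ?_, ?_⟩, fun v τ σ θ hv hτ hE hσ hσ1 hθ => ?_,
    fun σ W x₀ hσ hσ1 h A B x y hAB => hall_lang hσ hσ1 h A B x y ?_⟩
  · obtain ⟨F, h1, h2⟩ := family_threshold (fun t : ℕ => (t : ℝ)) hν (s := 5 / 6 + σ) (by linarith) hθ B₀ hB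
      (J := Unit) (fun _ => Pool.Agent.V60.HallA.F σ) (fun _ ε hε => Pool.Agent.V60.HallA.count σ hσ hσ1 ε hε)
    refine ⟨F, h1, fun u hu huF β hβ hβ0 => ?_⟩
    obtain ⟨H₀, hH⟩ := h2 u hu huF β hβ hβ0 ()
    exact ⟨max H₀ 2, largeOn_of hσ hσ1 hH⟩
  · have hrat : ∀ q : ℚ, ∀ᵐ u : ℝ, 0 ≤ (q : ℝ) → (q : ℝ) < 1 / 6 → 1 < u → ∀ θ : ℝ, θ < 1 - (5 / 6 + q) →
        ∀ β ∈ B₀, 0 < β → ∃ H₀ : ℝ, ∀ t ∈ Pool.Agent.V60.HallA.F q, Near ν θ β u (t : ℝ) → (t : ℝ) < H₀ := by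
      intro q
      by_cases hq : 0 ≤ (q : ℝ) ∧ (q : ℝ) < 1 / 6
      · filter_upwards [ae_family_threshold (fun t : ℕ => (t : ℝ)) hν (s := 5 / 6 + (q : ℝ)) (by linarith [hq.1])
          B₀ hB (J := Unit) (fun _ => Pool.Agent.V60.HallA.F q)
          (fun _ ε hε => Pool.Agent.V60.HallA.count q hq.1 hq.2 ε hε)] with u hu _ _ hu1 θ hθ β hβ hβ0
        exact hu hu1 θ hθ β hβ hβ0 ()
      · exact Eventually.of_forall fun u h1 h2 => absurd ⟨h1, h2⟩ hq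
    filter_upwards [ae_all_iff.2 hrat] with u hu hu1 σ θ hσ hσ1 hθ β hβ hβ0
    obtain ⟨q, h1, h2⟩ := exists_rat_btwn (show σ < min (1 / 6) (1 / 6 - θ) from lt_min hσ1 (by linarith))
    have h3 : (q : ℝ) < 1 / 6 := h2.trans_le (min_le_left _ _)
    have h4 : (q : ℝ) < 1 / 6 - θ := h2.trans_le (min_le_right _ _)
    obtain ⟨H₀, hH⟩ := hu q (by linarith) h3 hu1 θ (by linarith) β hβ hβ0
    refine ⟨max H₀ 2, ?_⟩
    have h5 := largeOn_of (by linarith : (0 : ℝ) ≤ q) h3 (W := {z | Near ν θ β u z}) hH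
    intro A B x y hxy hx hW
    rcases h5 A B x y hxy hx hW with h6 | h6
    · left
      refine lt_of_le_of_lt ?_ h6
      have h7 : (2 : ℝ) ≤ |(x : ℝ)| := (le_max_right _ _).trans hx
      exact Real.rpow_le_rpow_of_exponent_le (by linarith) h1.le
    · exact Or.inr h6
  · obtain ⟨F, h1, h2⟩ := Pool.Agent.Y854.GM.windows (Pool.Agent.V60.HallA.F σ) (fun t : ℕ => (t : ℝ)) hv hτ hE
      (by linarith : (0 : ℝ) ≤ 5 / 6 + σ) hθ (fun ε hε => Pool.Agent.V60.HallA.count σ hσ hσ1 ε hε)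
    refine ⟨F, h1, fun α hα hαF => ?_⟩
    obtain ⟨n₀, hn⟩ := h2 α hα hαF
    refine ⟨n₀, fun n hn1 => ?_⟩
    intro A B x y hxy hx hW
    by_contra hcon
    rw [not_or] at hcon
    have h3 := mem_F hσ hσ1 hxy (by exact_mod_cast hx) hcon.1 hcon.2
    have e : ((x.natAbs : ℕ) : ℝ) = |(x : ℝ)| := by
      rw [Nat.cast_natAbs]
      push_cast
      rfl
    have h4 := hn n hn1 _ h3
    rw [e] at h4
    exact absurd hW (not_le.2 h4)
  · by_contra hcon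
    push Not at hcon
    apply hAB
    rw [hcon.1, hcon.2]
    norm_num

end Pool.Agent.Results.MP_a1107e_nt.AbscissaWindows
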