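import Pool.Agent.V60.LD.HallACount
import Pool.Agent.V11300.PA.Eps

/-!
# The Hall-Lang conjecture for the integral points with abscissa in the residue classes modulo `p ^ f` of almost every
`p`-adic integer

Let `p` be a prime number, `κ > 0` and `0 ≤ σ < 1 / 6`. For all `α ∈ ℤ_p` outside a set of Hausdorff dimension at most
`κ (5 / 6 + σ)` and all large `f`, EVERY integral point `(x, y)` of every curve `y ^ 2 = x ^ 3 + A x + B` with
`2 ≤ |x| ≤ p ^ (κ f)` and `x ≡ α mod p ^ f` satisfies `|A| > |x| ^ σ` or `|B| > |x| / 128`; so its coordinates are bounded by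
a power of the coefficients. For `κ < 1 / (5 / 6 + σ)` the exceptional set has a dimension smaller than one.
-/

set_option autoImplicit false

open Filter Topology

namespace Pool.Agent.Results.MP_a1107e_nt.PointsInResidueClasses

open Pool.Agent.V11300.PA

lemma mem_F {σ : ℝ} (hσ : 0 ≤ σ) (hσ1 : σ < 1 / 6) {A B x y : ℤ} (h : y ^ 2 = x ^ 3 + A * x + B) (hx1 : 2 ≤ |x|)
    (h1 : ¬ |(x : ℝ)| ^ σ < |(A : ℝ)|) (h2 : ¬ |(x : ℝ)| < 128 * |(B : ℝ)|) :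
    0 < x ∧ x.natAbs ∈ Pool.Agent.V60.HallA.F σ := by
  push Not at h1 h2
  have h2' : 128 * |B| ≤ |x| := by exact_mod_cast h2
  have hx2 : (2 : ℝ) ≤ |(x : ℝ)| := by exact_mod_cast hx1
  have hAx : |(A : ℝ)| ≤ |(x : ℝ)| := by
    refine h1.trans ?_
    calc |(x : ℝ)| ^ σ ≤ |(x : ℝ)| ^ (1 : ℝ) := Real.rpow_le_rpow_of_exponent_le (by linarith) (by linarith)
      _ = |(x : ℝ)| := Real.rpow_one _
  have hAx' : |A| ≤ |x| := by exact_mod_cast hAx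
  have hx0 : 0 < x := by
    by_contra hcon
    push Not at hcon
    obtain ⟨z, hz⟩ : ∃ z : ℤ, z = -x := ⟨_, rfl⟩
    have e : x = -z := by omega
    have hz0 : 0 ≤ z := by omega
    have h7 : |x| = z := by rw [e, abs_neg, abs_of_nonneg hz0]
    rw [h7] at h2' hAx' hx1
    have e2 : B = y ^ 2 + z ^ 3 + A * z := by
      rw [e] at h
      have : (-z) ^ 3 = -(z ^ 3) := by ring
      rw [this] at h
      linarith
    have h3 : -(z * z) ≤ A * z := by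
      have := (abs_le.1 hAx').1
      nlinarith
    have h4 : 0 ≤ y ^ 2 := sq_nonneg y
    have h5 : z ^ 3 - z * z ≤ |B| := by
      have := le_abs_self B
      linarith
    have h6 : z ^ 3 - z * z = z * z * (z - 1) := by ring
    have h8 : z ≤ z * z * (z - 1) := by nlinarith
    have h9 : 0 < z := by omega
    linarith
  refine ⟨hx0, A, ?_, y.natAbs, ?_⟩
  · have e : ((x.natAbs : ℕ) : ℝ) = |(x : ℝ)| := by
      rw [Nat.cast_natAbs]
      push_cast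
      rfl
    rw [e]
    exact h1
  · rw [Int.natCast_natAbs, Int.natCast_natAbs, sq_abs, abs_of_pos hx0]
    have h3 : y ^ 2 - x ^ 3 - A * x = B := by linarith
    rw [h3]
    rw [abs_of_pos hx0] at h2'
    exact h2'

/-- the bound in the form of the problem -/
lemma hall_lang {σ : ℝ} (hσ : 0 < σ) (hσ1 : σ < 1 / 6) (A B x y : ℤ)
    (hAB : A ≠ 0 ∨ B ≠ 0) (hxy : y ^ 2 = x ^ 3 + A * x + B)
    (h : |(x : ℝ)| ^ σ < |(A : ℝ)| ∨ |(x : ℝ)| < 128 * |(B : ℝ)|) :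
    max |(x : ℝ)| |(y : ℝ)| ≤ 2 * 128 ^ (3 / (2 * σ)) * (max |(A : ℝ)| |(B : ℝ)|) ^ (3 / (2 * σ)) := by
  set m : ℝ := max |(A : ℝ)| |(B : ℝ)| with hm
  have hm1 : 1 ≤ m := by
    rcases hAB with h0 | h0
    · refine le_trans ?_ (le_max_left _ _)
      exact_mod_cast Int.one_le_abs h0
    · refine le_trans ?_ (le_max_right _ _)
      exact_mod_cast Int.one_le_abs h0
  have hm0 : 0 < m := by linarith
  have h6 : 1 ≤ 1 / σ := by
    rw [le_div_iff₀ hσ]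
    linarith
  set R : ℝ := (128 * m) ^ (1 / σ) with hR
  have hR1 : 128 * m ≤ R := by
    calc 128 * m = (128 * m) ^ (1 : ℝ) := (Real.rpow_one _).symm
      _ ≤ (128 * m) ^ (1 / σ) := Real.rpow_le_rpow_of_exponent_le (by linarith) h6
  have hR0 : 0 < R := by linarith
  have hxR : |(x : ℝ)| ≤ R := by
    rcases h with h1 | h1
    · have h2 : |(x : ℝ)| ^ σ ≤ 128 * m := by
        have := le_max_left |(A : ℝ)| |(B : ℝ)|
        rw [← hm] at this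
        linarith
      calc |(x : ℝ)| = (|(x : ℝ)| ^ σ) ^ (1 / σ) := by
            rw [← Real.rpow_mul (abs_nonneg _), mul_one_div, div_self hσ.ne', Real.rpow_one]
        _ ≤ (128 * m) ^ (1 / σ) := Real.rpow_le_rpow (Real.rpow_nonneg (abs_nonneg _) _) h2 (by positivity)
    · have := le_max_right |(A : ℝ)| |(B : ℝ)|
      rw [← hm] at this
      linarith
  -- the ordinate
  have hy2 : |(y : ℝ)| ^ 2 ≤ (2 * R ^ (3 / 2 : ℝ)) ^ 2 := by
    have e1 : (y : ℝ) ^ 2 = (x : ℝ) ^ 3 + A * x + B := by exact_mod_cast hxy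
    have e2 : (2 * R ^ (3 / 2 : ℝ)) ^ 2 = 4 * R ^ 3 := by
      rw [mul_pow, ← Real.rpow_natCast (R ^ (3 / 2 : ℝ)) 2, ← Real.rpow_mul hR0.le]
      norm_num
    rw [sq_abs, e1, e2]
    have h2 : (x : ℝ) ^ 3 ≤ R ^ 3 := by
      have h3 : (x : ℝ) ^ 3 ≤ |(x : ℝ)| ^ 3 := by
        rw [← abs_pow]
        exact le_abs_self _
      refine h3.trans ?_
      gcongr
    have h3 : (A : ℝ) * x ≤ R * R := by
      calc (A : ℝ) * x ≤ |(A : ℝ) * x| := le_abs_self _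
        _ = |(A : ℝ)| * |(x : ℝ)| := abs_mul _ _
        _ ≤ R * R := by
          have := le_max_left |(A : ℝ)| |(B : ℝ)|
          rw [← hm] at this
          gcongr
          linarith
    have h4 : (B : ℝ) ≤ R := by
      have := le_max_right |(A : ℝ)| |(B : ℝ)|
      rw [← hm] at this
      have := le_abs_self (B : ℝ)
      linarith
    have h5 : 1 ≤ R := by linarith
    nlinarith [mul_le_mul_of_nonneg_left h5 hR0.le, mul_le_mul_of_nonneg_left h5 (mul_pos hR0 hR0).le]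
  have hy : |(y : ℝ)| ≤ 2 * R ^ (3 / 2 : ℝ) := le_of_sq_le_sq hy2 (by positivity)
  have hx2 : |(x : ℝ)| ≤ 2 * R ^ (3 / 2 : ℝ) := by
    have h5 : 1 ≤ R := by linarith
    have h7 : R ≤ R ^ (3 / 2 : ℝ) := by
      calc R = R ^ (1 : ℝ) := (Real.rpow_one _).symm
        _ ≤ R ^ (3 / 2 : ℝ) := Real.rpow_le_rpow_of_exponent_le h5 (by norm_num)
    linarith
  refine (max_le hx2 hy).trans (le_of_eq ?_)
  rw [hR, ← Real.rpow_mul (by positivity), Real.mul_rpow (by norm_num) hm0.le]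
  have e3 : 1 / σ * (3 / 2) = 3 / (2 * σ) := by field_simp
  rw [e3]
  ring

/-- **Theorem.** (1) Let `p` be a prime number, `κ > 0`, `0 ≤ σ < 1 / 6`. For all `α ∈ ℤ_p` outside a set of Hausdorff
dimension at most `κ (5 / 6 + σ)`, all integers `a ≠ 0` and `b` and all large `f` all integral points `(x, y)` of the curves
`y ^ 2 = x ^ 3 + A x + B` with `x = a t + b`, `2 ≤ |x| ≤ p ^ (κ f)` and `t ≡ α mod p ^ f` satisfy `|A| > |x| ^ σ` or
`|B| > |x| / 128`.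
(2) If `0 < σ < 1 / 6` and `(A, B) ≠ (0, 0)` then this gives the bound
`max (|x|, |y|) ≤ 2 (128 max (|A|, |B|)) ^ (3 / (2 σ))` of the form of the Hall-Lang conjecture. -/
theorem result :
    (∀ (p : ℕ) [Fact p.Prime] (κ σ : ℝ), 0 < κ → 0 ≤ σ → σ < 1 / 6 →
      ∃ E : Set ℤ_[p], dimH E ≤ ENNReal.ofReal (κ * (5 / 6 + σ)) ∧
      ∀ α : ℤ_[p], α ∉ E → ∀ a b : ℤ, a ≠ 0 → ∃ f₀ : ℕ, ∀ f : ℕ, f₀ ≤ f → ∀ A B x y t : ℤ,
        y ^ 2 = x ^ 3 + A * x + B → x = a * t + b → 2 ≤ |x| → |(x : ℝ)| ≤ (p : ℝ) ^ (κ * f) →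
        (p : ℤ_[p]) ^ f ∣ (t : ℤ_[p]) - α → |(x : ℝ)| ^ σ < |(A : ℝ)| ∨ |(x : ℝ)| < 128 * |(B : ℝ)|) ∧
    (∀ σ : ℝ, 0 < σ → σ < 1 / 6 → ∀ A B x y : ℤ, (A ≠ 0 ∨ B ≠ 0) → y ^ 2 = x ^ 3 + A * x + B →
      (|(x : ℝ)| ^ σ < |(A : ℝ)| ∨ |(x : ℝ)| < 128 * |(B : ℝ)|) →
      max |(x : ℝ)| |(y : ℝ)| ≤ 2 * 128 ^ (3 / (2 * σ)) * (max |(A : ℝ)| |(B : ℝ)|) ^ (3 / (2 * σ))) := by
  refine ⟨fun p hp κ σ hκ hσ hσ1 => ?_, fun σ hσ hσ1 A B x y hAB hxy h => hall_lang hσ hσ1 A B x y hAB hxy h⟩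
  have hp1 : (1 : ℝ) < p := by exact_mod_cast hp.out.one_lt
  -- pairs `(a, b)` of integers are coded by natural numbers
  obtain ⟨φ, hφ⟩ := exists_surjective_nat (ℤ × ℤ)
  obtain ⟨E, hE1, hE2⟩ := general_eps (M := ℤ_[p]) (fun t : ℤ × ℕ => (t.1 : ℤ_[p])) (fun t => t.2) hp1
    (s := 5 / 6 + σ) (by positivity) hκ
    (fun j _ => {t : ℤ × ℕ | (φ j).1 ≠ 0 ∧ ((t.2 : ℕ) : ℤ) = (φ j).1 * t.1 + (φ j).2 ∧ t.2 ∈ Pool.Agent.V60.HallA.F σ}) (by
      intro ε hε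
      obtain ⟨C, hC⟩ := Pool.Agent.V60.HallA.count σ hσ hσ1 ε hε
      refine ⟨fun _ => C, fun j _ T hT => ?_⟩
      obtain ⟨h1, h2⟩ := hC (T : ℝ) (by exact_mod_cast hT)
      have hinj : Set.InjOn (fun t : ℤ × ℕ => t.2) {x : ℤ × ℕ | x ∈ {t : ℤ × ℕ | (φ j).1 ≠ 0 ∧
          ((t.2 : ℕ) : ℤ) = (φ j).1 * t.1 + (φ j).2 ∧ t.2 ∈ Pool.Agent.V60.HallA.F σ} ∧ x.2 ≤ T} := by
        rintro ⟨x1, x2⟩ ⟨⟨ha, hx, -⟩, -⟩ ⟨y1, y2⟩ ⟨⟨-, hy, -⟩, -⟩ hxy
        simp only at ha hx hy hxy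
        subst hxy
        have h3 : (φ j).1 * x1 = (φ j).1 * y1 := by linarith
        rw [mul_left_cancel₀ ha h3]
      have himg : (fun t : ℤ × ℕ => t.2) '' {x : ℤ × ℕ | x ∈ {t : ℤ × ℕ | (φ j).1 ≠ 0 ∧
          ((t.2 : ℕ) : ℤ) = (φ j).1 * t.1 + (φ j).2 ∧ t.2 ∈ Pool.Agent.V60.HallA.F σ} ∧ x.2 ≤ T} ⊆
          {t : ℕ | t ∈ Pool.Agent.V60.HallA.F σ ∧ (t : ℝ) ≤ (T : ℝ)} := by
        rintro _ ⟨x, ⟨⟨-, -, h3⟩, h4⟩, rfl⟩
        exact ⟨h3, by exact_mod_cast h4⟩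
      refine ⟨(h1.subset himg).of_finite_image hinj, ?_⟩
      rw [← hinj.ncard_image]
      exact ((Nat.cast_le (α := ℝ)).2 (Set.ncard_le_ncard himg h1)).trans h2)
  refine ⟨E, hE1, fun α hα a b ha => ?_⟩
  obtain ⟨j, hj⟩ := hφ (a, b)
  obtain ⟨f₀, hf⟩ := hE2 α hα j
  refine ⟨f₀, fun f hff A B x y t hxy hxt hx2 hx hdvd => ?_⟩
  by_contra hcon
  rw [not_or] at hcon
  obtain ⟨hpos, hmem⟩ := mem_F hσ hσ1 hxy hx2 hcon.1 hcon.2
  refine hf f hff (t, x.natAbs) ?_ ?_ ⟨?_, ?_, hmem⟩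
  · simp only
    rw [Nat.cast_natAbs, Int.cast_abs]
    exact hx
  · rw [dist_eq_norm]
    exact dist_le_of_dvd p hdvd
  · rw [hj]
    exact ha
  · rw [hj]
    simp only
    rw [Int.natCast_natAbs, abs_of_pos hpos]
    exact hxt

end Pool.Agent.Results.MP_a1107e_nt.PointsInResidueClasses
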