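import Pool.Agent.Results.MP_a1107e_nt.FewGeneratorPoints
import Pool.Agent.H107.SeqZero

/-!
# Integral points of elliptic curves whose invariant is close to almost any given number

The Hall-Lang conjecture bounds `max |x| |y|` by a fixed power of `max |A| |B|` for the integral points `(x, y)` of all the
elliptic curves `y ^ 2 = x ^ 3 + A * x + B`. We consider the integral points whose two coordinates are, up to sign, products of
powers of the same `N` (unspecified) integers of size at most `X`, on the curves with `|A|, |B| ≤ X ^ E`.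

There is a set of Hausdorff dimension ZERO such that for ALL real numbers `z` outside of it, all `N`, `E` and all `w > 0`
(arbitrarily small) there are `K`, `δ > 0` and `X₀` such that for `X ≥ X₀` ALL these points on ALL the curves of this kind whose
`j`-invariant satisfies `|j - z| ≤ X ^ (-w)` satisfy `max |x| |y| ≤ X ^ K` or `max |x| |y| > exp (X ^ δ)`.

Instead of `j` one can take any function of the curve and the point with values in a metric space which is invariant under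
isomorphisms over `ℚ`, for example `j` in `ℚ_p`, or a pair of invariants.

The input is the bound `X ^ ε` for the number of the exceptions up to isomorphism (starting result `FewGeneratorPoints`).
-/

set_option autoImplicit false

namespace Pool.Agent.Results.MP_a1107e_nt.PointsNearInvariants

open Pool.Agent.Results.MP_a1107e_nt.FewGeneratorPoints (Generated LargePoint Scales)

/-- the `j`-invariant of `y ^ 2 = x ^ 3 + A * x + B` -/
noncomputable def jInv (A B : ℤ) : ℝ := 6912 * (A : ℝ) ^ 3 / (4 * (A : ℝ) ^ 3 + 27 * (B : ℝ) ^ 2)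

/-- the exceptions at the scale `X` -/
def L (i : ℕ × ℕ) (K m X : ℕ) : Set (ℤ × ℤ × ℤ × ℤ) :=
  {p | LargePoint i.1 i.2 K (1 / ((m : ℝ) + 1)) X p.1 p.2.1 p.2.2.1 p.2.2.2}

theorem L_mono (i : ℕ × ℕ) (K m X Y : ℕ) (hX : 2 ≤ X) (hXY : X ≤ Y) (hY : Y ≤ 2 * X) : L i (2 * K) m X ⊆ L i K m Y := by
  rintro ⟨A, B, x, y⟩ h
  have hXZ : (X : ℤ) ≤ (Y : ℤ) := by exact_mod_cast hXY
  have h0 : (0 : ℤ) ≤ (X : ℤ) := Int.natCast_nonneg X
  have hpow : (X : ℤ) ^ i.2 ≤ (Y : ℤ) ^ i.2 := pow_le_pow_left₀ h0 hXZ _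
  refine ⟨h.A_le.trans hpow, h.B_le.trans hpow, h.disc, h.eqn, ?_, ?_, ?_⟩
  · obtain ⟨η, θ, b, e, f, g1, g2, g3, g4, g5⟩ := h.gen
    exact ⟨η, θ, b, e, f, g1, g2, fun j => ⟨(g3 j).1, (g3 j).2.trans hXY⟩, g4, g5⟩
  · refine lt_of_le_of_lt ?_ h.large
    have h1 : (Y : ℤ) ≤ (X : ℤ) ^ 2 := by
      have : (Y : ℤ) ≤ 2 * (X : ℤ) := by exact_mod_cast hY
      have h2 : (2 : ℤ) ≤ (X : ℤ) := by exact_mod_cast hX
      nlinarith
    rw [pow_mul]
    exact pow_le_pow_left₀ (Int.natCast_nonneg Y) h1 _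
  · refine h.bound.trans (Real.exp_le_exp.2 ?_)
    exact Real.rpow_le_rpow (Nat.cast_nonneg _) (by exact_mod_cast hXY) (by positivity)

/-- **Theorem.** (1) invariant functions `ψ` of curve and point, (2) the `j`-invariant. `LargePoint N E K δ X A B x y`: `(x, y)` is
an integral point of the elliptic curve `y ^ 2 = x ^ 3 + A * x + B`, `|A|, |B| ≤ X ^ E`, with coordinates generated by `N`
integers of size at most `X`, and `X ^ K < max |x| |y| ≤ exp (X ^ δ)`. -/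
theorem result :
    (∀ (M : Type) [MetricSpace M] (ψ : ℤ × ℤ × ℤ × ℤ → M),
      (∀ r : ℚ, r ≠ 0 → ∀ A B x y A' B' x' y' : ℤ, Scales r A B x y A' B' x' y' → ψ (A, B, x, y) = ψ (A', B', x', y')) →
      ∃ E₀ : Set M, dimH E₀ = 0 ∧ ∀ z ∉ E₀, ∀ (N E : ℕ) (w : ℝ), 0 < w → ∃ (K : ℕ) (δ : ℝ) (X₀ : ℕ), 0 < δ ∧
        ∀ X : ℕ, X₀ ≤ X → ∀ A B x y : ℤ, LargePoint N E K δ X A B x y → (X : ℝ) ^ (-w) < dist (ψ (A, B, x, y)) z) ∧
    (∃ E₀ : Set ℝ, dimH E₀ = 0 ∧ ∀ z ∉ E₀, ∀ (N E : ℕ) (w : ℝ), 0 < w → ∃ (K : ℕ) (δ : ℝ) (X₀ : ℕ), 0 < δ ∧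
      ∀ X : ℕ, X₀ ≤ X → ∀ A B x y : ℤ, |A| ≤ (X : ℤ) ^ E → |B| ≤ (X : ℤ) ^ E → 4 * A ^ 3 + 27 * B ^ 2 ≠ 0 →
        y ^ 2 = x ^ 3 + A * x + B → Generated N X x y → |jInv A B - z| ≤ (X : ℝ) ^ (-w) →
        max |x| |y| ≤ (X : ℤ) ^ K ∨ Real.exp ((X : ℝ) ^ δ) < ((max |x| |y| : ℤ) : ℝ)) := by
  classical
  have main : ∀ (M : Type) [MetricSpace M] (ψ : ℤ × ℤ × ℤ × ℤ → M),
      (∀ r : ℚ, r ≠ 0 → ∀ A B x y A' B' x' y' : ℤ, Scales r A B x y A' B' x' y' → ψ (A, B, x, y) = ψ (A', B', x', y')) →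
      ∃ E₀ : Set M, dimH E₀ = 0 ∧ ∀ z ∉ E₀, ∀ (N E : ℕ) (w : ℝ), 0 < w → ∃ (K : ℕ) (δ : ℝ) (X₀ : ℕ), 0 < δ ∧
        ∀ X : ℕ, X₀ ≤ X → ∀ A B x y : ℤ, LargePoint N E K δ X A B x y →
          (X : ℝ) ^ (-w) < dist (ψ (A, B, x, y)) z := by
    intro M _ ψ hψ
    obtain ⟨E₀, h1, h2⟩ := Pool.Agent.H107.SZ.seq_zero ψ L (fun i ε hε => by
      obtain ⟨K, δ, hδ, h⟩ := Pool.Agent.Results.MP_a1107e_nt.FewGeneratorPoints.result i.1 i.2 ε hε
      obtain ⟨m, hm⟩ := exists_nat_one_div_lt hδ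
      refine ⟨K, m, fun X hX => ?_⟩
      obtain ⟨S, g1, -, g3⟩ := h X hX
      refine ⟨S.image ψ, le_trans (by exact_mod_cast Finset.card_image_le) g1, ?_⟩
      rintro ⟨A, B, x, y⟩ hp
      have hX1 : (1 : ℝ) ≤ X := by exact_mod_cast (by omega : 1 ≤ X)
      have hp' : LargePoint i.1 i.2 K δ X A B x y := by
        refine ⟨hp.A_le, hp.B_le, hp.disc, hp.eqn, hp.gen, hp.large, hp.bound.trans (Real.exp_le_exp.2 ?_)⟩
        exact Real.rpow_le_rpow_of_exponent_le hX1 hm.le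
      obtain ⟨s, hs, r, hr, hsc⟩ := g3 A B x y hp'
      rw [hψ r hr _ _ _ _ _ _ _ _ hsc]
      exact Finset.mem_image_of_mem ψ hs) L_mono
    refine ⟨E₀, h1, fun z hz N E w hw => ?_⟩
    obtain ⟨K, m, X₀, h3⟩ := h2 z hz (N, E) w hw
    refine ⟨K, 1 / ((m : ℝ) + 1), X₀, by positivity, fun X hX A B x y hp => ?_⟩
    exact h3 X hX (A, B, x, y) hp
  refine ⟨main, ?_⟩
  obtain ⟨E₀, h1, h2⟩ := main ℝ (fun p => jInv p.1 p.2.1) (by
    rintro r hr A B x y A' B' x' y' ⟨hA, hB, -, -⟩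
    have hA' : (A : ℝ) = (r : ℝ) ^ 4 * A' := by exact_mod_cast congrArg (fun q : ℚ => (q : ℝ)) hA
    have hB' : (B : ℝ) = (r : ℝ) ^ 6 * B' := by exact_mod_cast congrArg (fun q : ℚ => (q : ℝ)) hB
    have hr' : (r : ℝ) ^ 12 ≠ 0 := pow_ne_zero _ (by exact_mod_cast hr)
    show jInv A B = jInv A' B'
    unfold jInv
    rw [hA', hB']
    have e1 : 6912 * ((r : ℝ) ^ 4 * A') ^ 3 = (r : ℝ) ^ 12 * (6912 * (A' : ℝ) ^ 3) := by ring
    have e2 : 4 * ((r : ℝ) ^ 4 * A') ^ 3 + 27 * ((r : ℝ) ^ 6 * B') ^ 2 =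
        (r : ℝ) ^ 12 * (4 * (A' : ℝ) ^ 3 + 27 * (B' : ℝ) ^ 2) := by ring
    rw [e1, e2, mul_div_mul_left _ _ hr'])
  refine ⟨E₀, h1, fun z hz N E w hw => ?_⟩
  obtain ⟨K, δ, X₀, hδ, h3⟩ := h2 z hz N E w hw
  refine ⟨K, δ, X₀, hδ, fun X hX A B x y hA hB hd he hg hj => ?_⟩
  by_contra hcon
  push Not at hcon
  have h4 := h3 X hX A B x y ⟨hA, hB, hd, he, hg, hcon.1, hcon.2⟩
  rw [Real.dist_eq] at h4
  exact absurd hj (not_le.2 h4)

end Pool.Agent.Results.MP_a1107e_nt.PointsNearInvariants
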